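import Pool.Agent.X119.Dig

set_option autoImplicit false

/-!
# Almost primes `n` with `4 n + 1` almost prime and with restricted digits

There are `c > 0` and `r₀` such that for all `r ≥ r₀`, all bases `b` and all large `K` the following
holds for ALL choices of sets `A 0, ..., A (K - 1)` of digits with `∏ |A i| ≥ exp (- c K) b ^ K`: the
integers `n < b ^ K` whose `i`-th digit belongs to `A i` for all `i < K`, such that `n` and
`4 n + 1` have at most `r` prime factors, all larger than `n ^ (1 / r)`, have the expected order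
`∏ |A i| / K ^ 2` (if the last digit can be chosen without a common factor with the base), and at
most `C ∏ |A i| / K ^ 2` of the integers with these digits are primes `n` with `4 n + 1` prime.
-/

namespace Pool.Agent.Results.MP_3df474_nt.PrescribedDigits

open Finset Filter
open Pool.Agent.Y816.PD (NA ND)

/-- `n` and `4 n + 1` have at most `r` prime factors (with multiplicity), all of them larger than
`n ^ (1 / r)`. -/
def Almost (r : ℕ) : Set ℕ :=
  {n | (∀ p : ℕ, p.Prime → (p ∣ n ∨ p ∣ 4 * n + 1) → (n : ℝ) ^ (1 / (r : ℝ)) < (p : ℝ)) ∧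
    n.primeFactorsList.length ≤ r ∧ (4 * n + 1).primeFactorsList.length ≤ r}

/-- The primes of the problem. -/
def S : Set ℕ := {n | n.Prime ∧ (4 * n + 1).Prime}

/-- **Restricted digits.** -/
theorem result :
    ∃ c : ℝ, 0 < c ∧ ∃ r₀ : ℕ, 2 ≤ r₀ ∧ ∀ r : ℕ, r₀ ≤ r → ∀ b : ℕ, 2 ≤ b → ∃ κ C : ℝ, 0 < κ ∧ 0 < C ∧
      ∀ᶠ K : ℕ in atTop, ∀ A : ℕ → Finset ℕ, (∀ i < K, A i ⊆ range b) →
        (b : ℝ) ^ K ≤ Real.exp (c * K) * NA K A →
        ((∃ d ∈ A 0, (d * (4 * d + 1)).Coprime b) →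
          κ * NA K A / (K : ℝ) ^ 2 ≤ ND b K A (Almost r)) ∧
        (ND b K A S : ℝ) ≤ C * NA K A / (K : ℝ) ^ 2 := by
  have e1 : ∀ m p : ℕ, ((p : ℤ) ∣ (((if (true : Bool) then 1 else 4 : ℕ) : ℕ) : ℤ) * m +
      (if (true : Bool) then (0 : ℤ) else 1)) ↔ p ∣ m := by
    intro m p
    simp only [if_true, Nat.cast_one, one_mul, add_zero]
    exact Int.natCast_dvd_natCast
  have e2 : ∀ m : ℕ, (((4 : ℕ) : ℕ) : ℤ) * m + 1 = ((4 * m + 1 : ℕ) : ℤ) := by
    intro m
    push_cast
    ring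
  obtain ⟨c, hc, r₀, hr₀, h⟩ := Pool.Agent.Y816.PD.digits_lin (ι := Bool)
    (fun i => if i then 1 else 4) (fun i => if i then 0 else 1)
    (fun i => by cases i <;> simp)
    (fun i => by
      cases i
      · exact ⟨0, 1, by norm_num⟩
      · exact ⟨1, 0, by norm_num⟩)
    (fun i j h1 _ => by cases i <;> cases j <;> simp_all)
    (fun p hp => by
      by_cases h5 : p = 5
      · subst h5
        refine ⟨2, fun i hd => ?_⟩
        cases i
        · exact absurd ((e2 2) ▸ hd : ((5 : ℕ) : ℤ) ∣ ((4 * 2 + 1 : ℕ) : ℤ)) (by norm_num)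
        · exact absurd ((e1 2 5).1 hd) (by norm_num)
      · refine ⟨1, fun i hd => ?_⟩
        cases i
        · have h6 : ((p : ℕ) : ℤ) ∣ ((4 * 1 + 1 : ℕ) : ℤ) := (e2 1) ▸ hd
          exact h5 ((Nat.prime_dvd_prime_iff_eq hp (by norm_num)).1 (Int.natCast_dvd_natCast.1 h6))
        · exact hp.one_lt.ne' (Nat.dvd_one.1 ((e1 1 p).1 hd)))
    (fun r => {m | (∀ p : ℕ, p.Prime → p ∣ m → (m : ℝ) ^ (1 / (r : ℝ)) < (p : ℝ)) ∧
      ∀ p : ℕ, p.Prime → (p : ℤ) ∣ 4 * (m : ℤ) + 1 → (m : ℝ) ^ (1 / (r : ℝ)) < (p : ℝ)})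
    Almost 2 (by simp)
    (fun r m hr h i p hp hd => by
      cases i
      · exact h.2 p hp (by simpa using hd)
      · exact h.1 p hp ((e1 m p).1 hd))
    (fun r m hr h1 h2 => by
      have h3 := h2 true
      have h4 := h2 false
      simp only [if_true, Nat.cast_one, one_mul, add_zero, Int.natAbs_natCast] at h3
      · have h5 : (4 * m + 1).primeFactorsList.length ≤ r := by
          have h6 : ((((if (false : Bool) then 1 else 4 : ℕ) : ℕ) : ℤ) * (m : ℤ) +
              (if (false : Bool) then (0 : ℤ) else 1)).natAbs = 4 * m + 1 := by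
            have h7 : (((if (false : Bool) then 1 else 4 : ℕ) : ℕ) : ℤ) * (m : ℤ) +
              (if (false : Bool) then (0 : ℤ) else 1) = ((4 * m + 1 : ℕ) : ℤ) := e2 m
            rw [h7, Int.natAbs_natCast]
          rw [h6] at h4
          exact h4
        refine ⟨?_, h3, h5⟩
        rintro p hp (hd | hd)
        · exact h1 true p hp ((e1 m p).2 hd)
        · refine h1 false p hp ?_
          have h7 : (((if (false : Bool) then 1 else 4 : ℕ) : ℕ) : ℤ) * (m : ℤ) +
              (if (false : Bool) then (0 : ℤ) else 1) = ((4 * m + 1 : ℕ) : ℤ) := e2 m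
          rw [h7]
          exact Int.natCast_dvd_natCast.2 hd)
    (fun b d => (d * (4 * d + 1)).Coprime b)
    (fun b d hb h p hp hpb i hd => by
      have h1 : ¬ p ∣ d * (4 * d + 1) := fun hd => by
        have h2 := Nat.dvd_gcd hd hpb
        rw [h] at h2
        exact hp.one_lt.ne' (Nat.dvd_one.1 h2)
      cases i
      · have h7 : (((if (false : Bool) then 1 else 4 : ℕ) : ℕ) : ℤ) * (d : ℤ) +
              (if (false : Bool) then (0 : ℤ) else 1) = ((4 * d + 1 : ℕ) : ℤ) := e2 d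
        rw [h7] at hd
        exact h1 (Dvd.dvd.mul_left (Int.natCast_dvd_natCast.1 hd) _)
      · exact h1 (Dvd.dvd.mul_right ((e1 d p).1 hd) _))
  refine ⟨c, hc, r₀, hr₀, fun r hr b hb => ?_⟩
  obtain ⟨κ, C, hκ, hC, h1⟩ := h r hr b hb
  refine ⟨κ, C, hκ, hC, ?_⟩
  filter_upwards [h1] with K hK A hA hprod
  obtain ⟨h2, h3⟩ := hK A hA hprod
  refine ⟨h2, (Pool.Agent.X119.Dig.nd_mono b K A ?_).trans h3⟩
  rintro n ⟨hn1, hn2⟩
  have hr2 : 2 ≤ r := hr₀.trans hr
  have hn := hn1.two_le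
  refine ⟨fun p hp hd => Pool.Agent.X119.Dig.prime_rough hr2 hn hn1 le_rfl hp hd,
    fun p hp hd => Pool.Agent.X119.Dig.prime_rough hr2 hn hn2 (by omega) hp ?_⟩
  have h4 : 4 * (n : ℤ) + 1 = ((4 * n + 1 : ℕ) : ℤ) := e2 n
  rw [h4] at hd
  exact Int.natCast_dvd_natCast.1 hd

end Pool.Agent.Results.MP_3df474_nt.PrescribedDigits
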