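import Pool.Agent.X32.Uni.Orb

/-!
# Prescribed sets of iterates of the maps `q ↦ a + q d`

Let `d ≥ 1`, `a ≠ 0` be coprime and let `S` be the map `x ↦ a + d x`; the question is about primes `n` with `S(n)` prime for `S(x) = 1 + 4 x`.
Let `J` be a set of `k ≥ 2` times without local obstruction: for every prime divisor `p` of `d - 1` which does not divide
`a` some residue class modulo `p` contains no `j ∈ J`. (For `d = 2` there is no condition; the condition is necessary,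
since `S^j(x) ≡ x + j a` modulo such a `p`.) For all times `J_i ≠ J_j` and every `R` there are `C`, `t` and `κ > 0` such
that every interval `(A, B]`, `B ≤ X`, `B - A ≥ θ X`, contains at least `κ (B - A) / (log X) ^ k` integers `n` such
that
* `|S^{J_i}(n)|` is prime (for instance `n` itself, if `J_i = 0`), `|S^{J_j}(n)|` is a product of at most two primes
  `> X ^ (1 / 9)`, all `|S^{J_l}(n)|` are products of at most `t` primes `> X ^ (1 / t)`;
* at all other times `m ≤ R` the iterate `S^m(n)` has a prime factor `≤ C`.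
For every colouring with `r` colours almost all these `n` (all but `δ (B - A) / (log X) ^ k`) are covered by pairwise
disjoint monochromatic arithmetic progressions of `s` such `n`, with differences `≤ (log X) ^ c`.
-/

set_option autoImplicit false

namespace Pool.Agent.Results.MP_3df474_nt.PrescribedIterates

open Finset

variable {k : ℕ}

/-- the map `x ↦ a + d x` -/
def S (a d : ℤ) (x : ℤ) : ℤ := a + d * x

/-- `|v| > 1`, and `|v|` is a product of at most `r` primes, all of them larger than `y` -/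
def Almost (r : ℕ) (y : ℝ) (v : ℤ) : Prop :=
  1 < |v| ∧ v.natAbs.primeFactorsList.length ≤ r ∧ ∀ q : ℕ, q.Prime → (q : ℤ) ∣ v → y < q

open Classical in
/-- the integers `n` of `(A, B]` described above -/
noncomputable def Good (a d : ℤ) (J : Fin k → ℕ) (i j : Fin k) (R C t X A B : ℕ) : Finset ℕ :=
  (Ioc A B).filter (fun n : ℕ => ((S a d)^[J i] (n : ℤ)).natAbs.Prime ∧
    Almost 2 ((X : ℝ) ^ (1 / 9 : ℝ)) ((S a d)^[J j] (n : ℤ)) ∧
    (∀ l, Almost t ((X : ℝ) ^ (1 / (t : ℝ))) ((S a d)^[J l] (n : ℤ))) ∧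
    ∀ m ≤ R, (∀ l, J l ≠ m) → ∃ q : ℕ, q.Prime ∧ q ≤ C ∧ (q : ℤ) ∣ (S a d)^[m] (n : ℤ))

/-- the terms `a, a + b, ..., a + (s - 1) b` of the progression `z = (a, b)` -/
def terms (s : ℕ) (z : ℕ × ℕ) : Finset ℕ := (range s).image (fun i => z.1 + i * z.2)

theorem result (a d : ℤ) (hd : 1 ≤ d) (ha : a ≠ 0) (hcop : IsCoprime a d) (J : Fin k → ℕ)
    (hinj : Function.Injective J)
    (hJ : ∀ p : ℕ, p.Prime → (p : ℤ) ∣ d - 1 → ¬ (p : ℤ) ∣ a → ∃ c : ℕ, ∀ l, ¬ J l ≡ c [MOD p])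
    (i j : Fin k) (hij : i ≠ j) (R : ℕ) :
    ∃ C t : ℕ, 1 ≤ t ∧ ∃ κ : ℝ, 0 < κ ∧ ∀ (s r : ℕ) (θ δ : ℝ), 1 ≤ s → 0 < θ → 0 < δ → ∃ c X₀ : ℕ,
      ∀ X : ℕ, X₀ ≤ X → ∀ A B : ℕ, B ≤ X → θ * X ≤ (B : ℝ) - A →
        κ * ((B : ℝ) - A) / Real.log X ^ k ≤ ((Good a d J i j R C t X A B).card : ℝ) ∧
        ∀ χ : ℕ → Fin r, ∃ P : Finset (ℕ × ℕ),
          (∀ z ∈ P, 1 ≤ z.2 ∧ (z.2 : ℝ) ≤ Real.log X ^ c ∧
            ∀ m < s, z.1 + m * z.2 ∈ Good a d J i j R C t X A B ∧ χ (z.1 + m * z.2) = χ z.1) ∧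
          (P : Set (ℕ × ℕ)).PairwiseDisjoint (terms s) ∧
          (((Good a d J i j R C t X A B \ P.biUnion (terms s)).card : ℕ) : ℝ) ≤
            δ * ((B : ℝ) - A) / Real.log X ^ k :=
  Pool.Agent.X32.Uni.orbP a d hd ha hcop J hinj hJ i j hij R

end Pool.Agent.Results.MP_3df474_nt.PrescribedIterates
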