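import Pool.Agent.X55.Fam.ResCor

/-!
# Almost primes `n` and `4 n + 1` with prescribed residues modulo a large prime

Let `P` be a large prime. We consider the pairs `n`, `4 n + 1` for the integers `n`
* of an ARBITRARY set `A` of residues modulo `P` whose Fourier coefficients are at most `Γ`, in ARBITRARY intervals of
  a length `H ≤ P` with `|A| H ≥ Γ P ^ (1 + ε)`;
* of a coset of a subgroup `G` of the residues, in the intervals of a length `H ≤ P` with `|G| H ≥ P ^ (3 / 2 + ε)`;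
* which are primitive roots of `P`, in the intervals of a length `H` with `P ^ (1 / 2 + ε) ≤ H ≤ P`;
* which are on the modular hyperbola `n m = a` modulo `P` with `n` and `m` in intervals of the lengths `H`, `K ≤ P` with
  `H K ≥ P ^ (3 / 2 + ε)`.
Each time the number of the `n` for which all the values have a bounded number of prime factors, all greater than
`P ^ δ`, has the expected order of magnitude `N / log ^ 2 P` (`N` is the expected number of the `n`); the number of the `n`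
for which all of them are primes is at most of this order; and the number of the `n` for which they have no prime factor up to `y`
is given by an asymptotic formula.

The proof combines the fundamental lemma of the sieve, Mertens' theorem for polynomials (both in the starting files),
incomplete sums, Weil's bound for the Kloosterman sums and a Moebius formula for primitive roots.
-/

set_option autoImplicit false

namespace Pool.Agent.Results.MP_3df474_nt.ResiduesModuloPrimes

open Finset Polynomial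

/-- `m ≠ 0` has at most `r` prime factors, counted with multiplicity, all of them greater than `x`. -/
def AlmostPrime (r : ℕ) (x : ℝ) (m : ℕ) : Prop :=
  m ≠ 0 ∧ m.primeFactorsList.length ≤ r ∧ ∀ q : ℕ, q.Prime → q ∣ m → x < q

/-- the number of the `n` in `(M, M + H]` with the property `R` for which `n`, `4 * n + 1` are almost primes -/
noncomputable def almost (r : ℕ) (x : ℝ) (M H : ℕ) (R : ℕ → Prop) : ℕ :=
  Set.ncard {n : ℕ | M < n ∧ n ≤ M + H ∧ R n ∧ AlmostPrime r x n ∧ AlmostPrime r x (4 * n + 1)}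

/-- the number of the `n` in `(M, M + H]` with the property `R` for which `n`, `4 * n + 1` are primes -/
noncomputable def primes (M H : ℕ) (R : ℕ → Prop) : ℕ :=
  Set.ncard {n : ℕ | M < n ∧ n ≤ M + H ∧ R n ∧ n.Prime ∧ (4 * n + 1).Prime}

/-- the number of the `n` in `(M, M + H]` with the property `R` for which `n`, `4 * n + 1` have no prime factor up to `y` -/
noncomputable def rough (y M H : ℕ) (R : ℕ → Prop) : ℕ :=
  Set.ncard {n : ℕ | M < n ∧ n ≤ M + H ∧ R n ∧ ∀ q : ℕ, q.Prime → q ≤ y → ¬ q ∣ n ∧ ¬ q ∣ 4 * n + 1}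

/-- the product over the primes `q ≤ y` of `1 - ν(q) / q`, where `ν(q)` is the number of the residues `a` modulo `q` for
which one of these values is divisible by `q` -/
noncomputable def V (y : ℕ) : ℝ :=
  ∏ q ∈ (Icc 1 y).filter Nat.Prime, (1 - (Set.ncard {a : ℕ | a < q ∧ (q ∣ a ∨ q ∣ 4 * a + 1)} : ℝ) / q)

/-- the bounds for the interval `(M, M + H]` and the property `R`, with the expected number `N` -/
def Bounds (P r : ℕ) (δ c C : ℝ) (B M H : ℕ) (R : ℕ → Prop) (N : ℝ) : Prop :=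
  (M + H ≤ P ^ B → c * N / Real.log P ^ 2 ≤ almost r ((P : ℝ) ^ δ) M H R) ∧ (primes M H R : ℝ) ≤ C * N / Real.log P ^ 2

/-- the polynomials -/
noncomputable def f : Fin 2 → ℤ[X] := ![C 1 * X + C 0, C 4 * X + C 1]

/-- their values -/
def G : Fin 2 → ℤ → ℤ := ![fun n => 1 * n + 0, fun n => 4 * n + 1]

/-- the values at natural numbers -/
def F : Fin 2 → ℕ → ℕ := ![fun n => n, fun n => 4 * n + 1]

lemma f_eval (i : Fin 2) (n : ℤ) : (f i).eval n = G i n := by
  fin_cases i <;> simp [f, G]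

lemma f_deg (i : Fin 2) : (f i).natDegree = (![1, 1] : Fin 2 → ℕ) i := by
  fin_cases i
  · show (C 1 * X + C 0 : ℤ[X]).natDegree = 1
    exact natDegree_linear (by norm_num)
  · show (C 4 * X + C 1 : ℤ[X]).natDegree = 1
    exact natDegree_linear (by norm_num)

lemma f_sys : Pool.Agent.X55.Fam.Sys 2 f := by
  refine Pool.Agent.X55.Fam.Sys.mk' ?_ ?_ ?_ 2 ?_ ?_
  · intro i
    fin_cases i
    · show Irreducible (C 1 * X + C 0 : ℤ[X])
      exact Pool.Agent.X55.Fam.lin_irr _ _ (by norm_num) (fun d h1 h2 => isUnit_of_dvd_one (by have := dvd_add (h1.mul_left (1)) (h2.mul_left (-1)); norm_num at this; exact this))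
    · show Irreducible (C 4 * X + C 1 : ℤ[X])
      exact Pool.Agent.X55.Fam.lin_irr _ _ (by norm_num) (fun d h1 h2 => isUnit_of_dvd_one (by have := dvd_add (h1.mul_left (0)) (h2.mul_left (1)); norm_num at this; exact this))
  · intro i
    rw [f_deg]
    fin_cases i <;> norm_num
  · intro i j hij
    fin_cases i <;> fin_cases j <;>
      first
      | exact absurd rfl hij
      | exact Pool.Agent.X55.Fam.not_assoc 0 (by rw [f_eval, f_eval]; norm_num [G])
  · simp [Fin.sum_univ_succ, f_deg]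
  · intro p hp hp2
    interval_cases p
    · exact absurd hp (by norm_num)
    · exact absurd hp (by norm_num)
    · exact ⟨1, fun i => by rw [f_eval]; fin_cases i <;> norm_num [G]⟩

lemma hF (i : Fin 2) (n : ℕ) : ((f i).eval (n : ℤ)).natAbs = F i n := by
  rw [f_eval]
  fin_cases i <;> (simp [G, F]; try omega)

lemma conv {P r : ℕ} {δ c C : ℝ} {B M H : ℕ} {R : ℕ → Prop} {N : ℝ}
    (h : Pool.Agent.X55.Fam.Both F P r δ c C B M H R N) : Bounds P r δ c C B M H R N := by
  unfold Pool.Agent.X55.Fam.Both at h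
  simpa [Bounds, almost, primes, AlmostPrime, F, Pool.Agent.X55.Fam.Good, Fin.forall_fin_succ] using h

theorem result :
    (∀ ε : ℝ, 0 < ε → ∀ B : ℕ, ∃ (r : ℕ) (δ c C : ℝ) (P₀ : ℕ), 0 < δ ∧ 0 < c ∧ 0 < C ∧
      ∀ P : ℕ, P₀ ≤ P → ∀ [Fact P.Prime],
      -- sets with small Fourier coefficients
      (∀ (A : Finset (ZMod P)) (Γ : ℝ), 1 ≤ Γ →
        (∀ a : ZMod P, a ≠ 0 → ‖∑ x ∈ A, (ZMod.stdAddChar (a * x) : ℂ)‖ ≤ Γ) →
        ∀ M H : ℕ, H ≤ P → Γ * (P : ℝ) ^ (1 + ε) ≤ A.card * H →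
        Bounds P r δ c C B M H (fun n => (n : ZMod P) ∈ A) (A.card * H / P)) ∧
      -- cosets of subgroups
      (∀ (S : Subgroup (ZMod P)ˣ) (b : (ZMod P)ˣ) (M H : ℕ), H ≤ P →
        (P : ℝ) ^ (3 / 2 + ε) ≤ (Nat.card S : ℝ) * H →
        Bounds P r δ c C B M H (fun n => ∃ g ∈ S, (n : ZMod P) = (b : ZMod P) * (g : ZMod P))
          (Nat.card S * H / P)) ∧
      -- primitive roots
      (∀ M H : ℕ, H ≤ P → (P : ℝ) ^ (1 / 2 + ε) ≤ H →
        Bounds P r δ c C B M H (fun n => orderOf (n : ZMod P) = P - 1) ((P - 1).totient * H / P)) ∧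
      -- modular hyperbolas
      (∀ a : ZMod P, a ≠ 0 → ∀ M H L K : ℕ, H ≤ P → K ≤ P → (P : ℝ) ^ (3 / 2 + ε) ≤ (H : ℝ) * K →
        Bounds P r δ c C B M H (fun n => ∃ m : ℕ, L < m ∧ m ≤ L + K ∧ (n : ZMod P) * (m : ZMod P) = a)
          (K * H / P))) ∧
    -- the asymptotic formula
    (∀ ε η : ℝ, 0 < ε → 0 < η → ∃ (δ : ℝ) (P₀ : ℕ), 0 < δ ∧
      ∀ P : ℕ, P₀ ≤ P → ∀ [Fact P.Prime] (A : Finset (ZMod P)) (Γ : ℝ), 1 ≤ Γ →
      (∀ a : ZMod P, a ≠ 0 → ‖∑ x ∈ A, (ZMod.stdAddChar (a * x) : ℂ)‖ ≤ Γ) →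
      ∀ M H : ℕ, H ≤ P → Γ * (P : ℝ) ^ (1 + ε) ≤ A.card * H → ∀ y : ℕ, 3 ≤ y → (y : ℝ) ≤ (P : ℝ) ^ δ →
      |(rough y M H (fun n => (n : ZMod P) ∈ A) : ℝ) - A.card * H / P * V y| ≤
        η * (A.card * H / P * V y)) := by
  constructor
  · intro ε hε B
    obtain ⟨r, δ, c, C, P₀, hδ, hc, hC, h⟩ := Pool.Agent.X55.Fam.res_cor f_sys F hF ε hε B
    refine ⟨r, δ, c, C, P₀, hδ, hc, hC, ?_⟩
    intro P hP _
    obtain ⟨h1, h2, h3, h4⟩ := h P hP
    exact ⟨fun A Γ hΓ hA M H hH hAH => conv (h1 A Γ hΓ hA M H hH hAH),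
      fun S b M H hH hGH => conv (h2 S b M H hH hGH),
      fun M H hH hPH => conv (h3 M H hH hPH),
      fun a ha M H L K hH hK hHK => conv (h4 a ha M H L K hH hK hHK)⟩
  · intro ε η hε hη
    obtain ⟨δ, P₀, hδ, h⟩ := Pool.Agent.X55.Fam.res_genA f_sys F hF ε η hε hη
    refine ⟨δ, P₀, hδ, ?_⟩
    intro P hP _ A Γ hΓ hA M H hH hAH y hy hyP
    have h1 := h P hP A Γ hΓ hA M H hH hAH y hy hyP
    unfold Pool.Agent.X55.Fam.Asym at h1
    simpa [rough, V, F, Fin.forall_fin_succ, Fin.exists_fin_succ] using h1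

end Pool.Agent.Results.MP_3df474_nt.ResiduesModuloPrimes
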